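import Mathlib

/-! A dimension-free fourth-moment bound for differences of Gaussian mixtures. -/

namespace Pool.Agent.H.MP_ba1a3e_pr

open MeasureTheory ProbabilityTheory Real Filter
open scoped RealInnerProductSpace

lemma fub {Z Ω : Type*} [MeasurableSpace Z] [MeasurableSpace Ω] (ν : Measure Z)
    [IsFiniteMeasure ν] (P : Measure Ω) [SFinite P] {σ : Z → ℝ} (hσ : Measurable σ)
    {u w : Z → Ω → ℝ} (hu : Measurable (Function.uncurry u)) (hw : Measurable (Function.uncurry w))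
    (u0 : ∀ z ω, 0 ≤ u z ω * 1) (w0 : ∀ z ω, 0 ≤ w z ω * 1) {κ : Z → Z → ℝ}
    (h : ∀ z z', Integrable (fun ω => u z ω * w z' ω) P ∧ ∫ ω, u z ω * w z' ω ∂P = κ z z') {C : ℝ}
    (hb : ∀ᵐ p ∂ν.prod ν, |σ p.1| ≤ 1 ∧ |σ p.2| ≤ 1 ∧ κ p.1 p.2 ≤ C) :
    Integrable (fun ω => (∫ z, σ z * u z ω ∂ν) * ∫ z, σ z * w z ω ∂ν) P ∧
      ∫ ω, (∫ z, σ z * u z ω ∂ν) * ∫ z, σ z * w z ω ∂ν ∂P =
        ∫ p, σ p.1 * σ p.2 * κ p.1 p.2 ∂ν.prod ν := by
  simp only [mul_one] at u0 w0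
  have hm : Measurable fun q : (Z × Z) × Ω => (σ q.1.1 * u q.1.1 q.2) * (σ q.1.2 * w q.1.2 q.2) :=
    ((hσ.comp (by fun_prop)).mul (hu.comp (f := fun q : (Z × Z) × Ω => (q.1.1, q.2))
      (by fun_prop))).mul ((hσ.comp (by fun_prop)).mul
        (hw.comp (f := fun q : (Z × Z) × Ω => (q.1.2, q.2)) (by fun_prop)))
  have e : ∀ (p : Z × Z) ω, (σ p.1 * u p.1 ω) * (σ p.2 * w p.2 ω) =
    σ p.1 * σ p.2 * (u p.1 ω * w p.2 ω) := fun p ω => by ring
  have hi : Integrable (fun q : (Z × Z) × Ω => (σ q.1.1 * u q.1.1 q.2) * (σ q.1.2 * w q.1.2 q.2))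
      ((ν.prod ν).prod P) := by
    rw [integrable_prod_iff hm.aestronglyMeasurable]
    refine ⟨Eventually.of_forall fun p => ?_, Integrable.of_bound
      hm.aestronglyMeasurable.norm.integral_prod_right' C ?_⟩
    · simp only [e]; exact (h _ _).1.const_mul _
    · filter_upwards [hb] with p hp
      rw [Real.norm_of_nonneg (integral_nonneg fun _ => norm_nonneg _)]
      refine le_trans (integral_mono_of_nonneg (Eventually.of_forall fun _ => norm_nonneg _)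
        (h p.1 p.2).1 (Eventually.of_forall fun ω => ?_)) ((h _ _).2.trans_le hp.2.2)
      simp only [e]
      have := mul_nonneg (u0 p.1 ω) (w0 p.2 ω)
      rw [Real.norm_eq_abs, abs_mul, abs_mul, abs_of_nonneg this]
      exact mul_le_of_le_one_left this (mul_le_one₀ hp.1 (abs_nonneg _) hp.2.1)
  have e2 : ∀ ω, (∫ z, σ z * u z ω ∂ν) * ∫ z, σ z * w z ω ∂ν =
      ∫ p, (σ p.1 * u p.1 ω) * (σ p.2 * w p.2 ω) ∂ν.prod ν := fun ω =>
    (integral_prod_mul (fun z => σ z * u z ω) fun z => σ z * w z ω).symm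
  simp only [e2]
  refine ⟨hi.integral_prod_right, ?_⟩
  rw [← integral_integral_swap (f := fun (p : Z × Z) ω => (σ p.1 * u p.1 ω) * (σ p.2 * w p.2 ω)) hi]
  refine integral_congr_ae (Eventually.of_forall fun p => ?_)
  simp only [e]
  rw [integral_const_mul, (h _ _).2]

lemma cs {Ω : Type*} [MeasurableSpace Ω] {P : Measure Ω} {f g : Ω → ℝ}
    (h1 : Integrable (fun x => f x * f x) P) (h2 : Integrable (fun x => f x * g x) P)
    (h3 : Integrable (fun x => g x * g x) P) :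
    (∫ x, f x * g x ∂P) ^ 2 ≤ (∫ x, f x * f x ∂P) * ∫ x, g x * g x ∂P := by
  have := discrim_le_zero (a := ∫ x, f x * f x ∂P) (b := 2 * ∫ x, f x * g x ∂P)
    (c := ∫ x, g x * g x ∂P) fun t => by
      have h4 : 0 ≤ ∫ x, (t * t * (f x * f x) + 2 * t * (f x * g x) + g x * g x) ∂P :=
        integral_nonneg fun x => by
          simp only [Pi.zero_apply]; nlinarith [sq_nonneg (t * f x + g x)]
      rw [integral_add ((h1.const_mul _).fun_add (h2.const_mul _)) h3,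
        integral_add (h1.const_mul _) (h2.const_mul _), integral_const_mul,
        integral_const_mul] at h4
      linarith
  rw [discrim] at this
  linarith

lemma cnv {Ω : Type*} [MeasurableSpace Ω] {P : Measure Ω} {f g : Ω → ℝ} {a b : ℝ}
    (h : Integrable (fun x => exp (f x)) P ∧ ∫ x, exp (f x) ∂P = exp a) (hf : ∀ x, g x = f x)
    (hb : b = a) : Integrable (fun x => exp (g x)) P ∧ ∫ x, exp (g x) ∂P = exp b := by
  simp only [hf, hb]; exact h

variable {E : Type*} [NormedAddCommGroup E] [InnerProductSpace ℝ E] [FiniteDimensional ℝ E]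
  [MeasurableSpace E] [BorelSpace E]

lemma expint (w : E) (c : ℝ) : Integrable (fun x => exp (⟪w, x⟫ + c)) (stdGaussian E) ∧
    ∫ x, exp (⟪w, x⟫ + c) ∂stdGaussian E = exp (‖w‖ ^ 2 / 2 + c) := by
  have h := IsGaussian.map_eq_gaussianReal (μ := stdGaussian E) (innerSL ℝ w)
  rw [integral_strongDual_stdGaussian, variance_dual_stdGaussian, innerSL_apply_norm] at h
  have h1 := mgf_gaussianReal h 1
  have h2 := integrable_exp_mul_gaussianReal (μ := 0) (v := (‖w‖ ^ 2).toNNReal) 1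
  rw [← h, integrable_map_measure (by fun_prop) (by fun_prop)] at h2
  simp only [exp_add]
  refine ⟨Integrable.mul_const (by simpa [Function.comp_def] using h2) _, ?_⟩
  rw [integral_mul_const]
  congr 1
  simpa [mgf] using h1

lemma expint2 (p q : E) (c : ℝ) : Integrable (fun x : E × E => exp (⟪p, x.1⟫ + ⟪q, x.2⟫ + c))
    ((stdGaussian E).prod (stdGaussian E)) ∧ ∫ x : E × E, exp (⟪p, x.1⟫ + ⟪q, x.2⟫ + c)
      ∂(stdGaussian E).prod (stdGaussian E) = exp (‖p‖ ^ 2 / 2 + ‖q‖ ^ 2 / 2 + c) := by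
  have e : ∀ x : E × E, exp (⟪p, x.1⟫ + ⟪q, x.2⟫ + c) = exp (⟪p, x.1⟫ + 0) * exp (⟪q, x.2⟫ + c) :=
    fun x => by rw [← exp_add]; congr 1; ring
  simp only [e]
  refine ⟨(expint p 0).1.mul_prod (expint q c).1, ?_⟩
  rw [integral_prod_mul (fun x => exp (⟪p, x⟫ + 0)) fun x => exp (⟪q, x⟫ + c), (expint p 0).2,
    (expint q c).2, ← exp_add]
  congr 1; ring

/-- The likelihood ratio of a shifted Gaussian. -/
noncomputable def ee (z x : E) : ℝ := exp (⟪z, x⟫ - ‖z‖ ^ 2 / 2)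

/-- Dilated signed mixture. -/
noncomputable def g (ν : Measure (E × ℝ)) (s : ℝ) (x : E) : ℝ := ∫ z, z.2 * ee (s • z.1) x ∂ν

/-- The kernel functional. -/
noncomputable def psi (ν : Measure (E × ℝ)) (r : ℝ) : ℝ :=
  ∫ p, p.1.2 * p.2.2 * exp (r * ⟪p.1.1, p.2.1⟫) ∂ν.prod ν

/-- Two-variable mixture. -/
noncomputable def G (ν : Measure (E × ℝ)) (a c : E) : ℝ :=
  ∫ z, z.2 * (ee (√2 • z.1) a * ee z.1 c) ∂ν

variable {ν : Measure (E × ℝ)} [IsFiniteMeasure ν] {M : ℝ}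

omit [InnerProductSpace ℝ E] [FiniteDimensional ℝ E] [BorelSpace E] in
lemma ae2 (hν : ∀ᵐ z ∂ν, ‖z.1‖ ≤ M ∧ |z.2| ≤ 1) :
    ∀ᵐ p ∂ν.prod ν, (‖p.1.1‖ ≤ M ∧ |p.1.2| ≤ 1) ∧ ‖p.2.1‖ ≤ M ∧ |p.2.2| ≤ 1 :=
  (Measure.quasiMeasurePreserving_fst.ae hν).and (Measure.quasiMeasurePreserving_snd.ae hν)

omit [FiniteDimensional ℝ E] [MeasurableSpace E] [BorelSpace E] in
lemma kle {z w : E} (hz : ‖z‖ ≤ M) (hw : ‖w‖ ≤ M) (r : ℝ) :
    exp (r * ⟪z, w⟫) ≤ exp (|r| * M ^ 2) := by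
  refine exp_le_exp.2 ((le_abs_self _).trans ?_)
  rw [abs_mul, sq]
  exact mul_le_mul_of_nonneg_left ((abs_real_inner_le_norm z w).trans
    (mul_le_mul hz hw (norm_nonneg _) ((norm_nonneg _).trans hz))) (abs_nonneg _)

omit [FiniteDimensional ℝ E] [MeasurableSpace E] [BorelSpace E] in
lemma ele {z : E} (hz : ‖z‖ ≤ M) (s : ℝ) (x : E) : ee (s • z) x ≤ exp (|s| * M * ‖x‖) := by
  refine exp_le_exp.2 ?_
  have := real_inner_le_norm (s • z) x
  rw [norm_smul, Real.norm_eq_abs] at this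
  have h2 : |s| * ‖z‖ * ‖x‖ ≤ |s| * M * ‖x‖ := by gcongr
  nlinarith [sq_nonneg ‖s • z‖]

omit [FiniteDimensional ℝ E] [BorelSpace E] in
lemma psi_le (hν : ∀ᵐ z ∂ν, ‖z.1‖ ≤ M ∧ |z.2| ≤ 1) (r : ℝ) :
    psi ν r ≤ exp (|r| * M ^ 2) * ν.real Set.univ ^ 2 := by
  have := norm_integral_le_of_norm_le_const (μ := ν.prod ν) (C := exp (|r| * M ^ 2))
    (f := fun p => p.1.2 * p.2.2 * exp (r * ⟪p.1.1, p.2.1⟫)) (by
      filter_upwards [ae2 hν] with p hp
      rw [Real.norm_eq_abs, abs_mul, abs_mul, abs_of_pos (exp_pos _)]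
      exact (mul_le_of_le_one_left (exp_pos _).le
        (mul_le_one₀ hp.1.2 (abs_nonneg _) hp.2.2)).trans (kle hp.1.1 hp.2.1 r))
  rw [← Set.univ_prod_univ, measureReal_prod_prod, ← sq] at this
  exact (le_abs_self _).trans this

lemma F1 (hν : ∀ᵐ z ∂ν, ‖z.1‖ ≤ M ∧ |z.2| ≤ 1) (s t : ℝ) :
    Integrable (fun x => g ν s x * g ν t x) (stdGaussian E) ∧
      ∫ x, g ν s x * g ν t x ∂stdGaussian E = psi ν (s * t) := by
  refine fub ν _ measurable_snd (u := fun z x => ee (s • z.1) x) (w := fun z x => ee (t • z.1) x)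
    (by unfold ee Function.uncurry; fun_prop) (by unfold ee Function.uncurry; fun_prop)
    (fun _ _ => by unfold ee; positivity) (fun _ _ => by unfold ee; positivity)
    (κ := fun z w => exp (s * t * ⟪z.1, w.1⟫)) (fun z w => ?_) (C := exp (|s * t| * M ^ 2)) ?_
  · have := expint (s • z.1 + t • w.1) (-‖s • z.1‖ ^ 2 / 2 - ‖t • w.1‖ ^ 2 / 2)
    simp only [ee, ← exp_add]
    refine cnv this (fun _ => ?_) ?_
    · rw [inner_add_left]; ring
    · rw [norm_add_sq_real, real_inner_smul_left, real_inner_smul_right]; ring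
  · filter_upwards [ae2 hν] with p hp using ⟨hp.1.2, hp.2.2, kle hp.1.1 hp.2.1 _⟩

lemma F3a (hν : ∀ᵐ z ∂ν, ‖z.1‖ ≤ M ∧ |z.2| ≤ 1) (a b : E) :
    Integrable (fun c => G ν a c * G ν b c) (stdGaussian E) := by
  refine (fub ν _ measurable_snd (u := fun z c => ee (√2 • z.1) a * ee z.1 c)
    (w := fun z c => ee (√2 • z.1) b * ee z.1 c)
    (by unfold ee Function.uncurry; fun_prop) (by unfold ee Function.uncurry; fun_prop)
    (fun _ _ => by unfold ee; positivity) (fun _ _ => by unfold ee; positivity)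
    (κ := fun z w => ee (√2 • z.1) a * ee (√2 • w.1) b * exp (1 * ⟪z.1, w.1⟫)) (fun z w => ?_)
    (C := exp (|√2| * M * ‖a‖) * exp (|√2| * M * ‖b‖) * exp (|1| * M ^ 2)) ?_).1
  · have := expint (z.1 + w.1) (⟪√2 • z.1, a⟫ - ‖√2 • z.1‖ ^ 2 / 2 + (⟪√2 • w.1, b⟫ -
      ‖√2 • w.1‖ ^ 2 / 2) - ‖z.1‖ ^ 2 / 2 - ‖w.1‖ ^ 2 / 2)
    simp only [ee, ← exp_add]
    refine cnv this (fun _ => ?_) ?_
    · rw [inner_add_left]; ring
    · rw [norm_add_sq_real]; ring
  · filter_upwards [ae2 hν] with p hp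
    refine ⟨hp.1.2, hp.2.2, mul_le_mul (mul_le_mul (ele hp.1.1 _ _) (ele hp.2.1 _ _)
      (exp_pos _).le (exp_pos _).le) (kle hp.1.1 hp.2.1 _) (exp_pos _).le (by positivity)⟩

lemma F3b (hν : ∀ᵐ z ∂ν, ‖z.1‖ ≤ M ∧ |z.2| ≤ 1) :
    Integrable (fun q : E × E => G ν q.1 q.2 * G ν q.1 q.2)
      ((stdGaussian E).prod (stdGaussian E)) ∧
    ∫ q : E × E, G ν q.1 q.2 * G ν q.1 q.2 ∂(stdGaussian E).prod (stdGaussian E) = psi ν 3 := by
  refine fub ν _ measurable_snd (u := fun z (q : E × E) => ee (√2 • z.1) q.1 * ee z.1 q.2)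
    (w := fun z (q : E × E) => ee (√2 • z.1) q.1 * ee z.1 q.2)
    (by unfold ee Function.uncurry; fun_prop) (by unfold ee Function.uncurry; fun_prop)
    (fun _ _ => by unfold ee; positivity) (fun _ _ => by unfold ee; positivity)
    (κ := fun z w => exp (3 * ⟪z.1, w.1⟫)) (fun z w => ?_) (C := exp (|3| * M ^ 2)) ?_
  · have := expint2 (√2 • z.1 + √2 • w.1) (z.1 + w.1) (-‖√2 • z.1‖ ^ 2 / 2 -
      ‖√2 • w.1‖ ^ 2 / 2 - ‖z.1‖ ^ 2 / 2 - ‖w.1‖ ^ 2 / 2)
    simp only [ee, ← exp_add]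
    refine cnv this (fun _ => ?_) ?_
    · rw [inner_add_left, inner_add_left]; ring
    · rw [norm_add_sq_real, norm_add_sq_real, real_inner_smul_left, real_inner_smul_right,
        ← mul_assoc √2, Real.mul_self_sqrt zero_le_two]
      ring
  · filter_upwards [ae2 hν] with p hp using ⟨hp.1.2, hp.2.2, kle hp.1.1 hp.2.1 _⟩

/-- The rotation by `-π/4`. -/
noncomputable def R (q : E × E) : E × E := ContinuousLinearMap.rotation (-(π / 4)) q

omit [FiniteDimensional ℝ E] [MeasurableSpace E] [BorelSpace E] in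
lemma R_inner (z x y : E) : ⟪√2 • z, (R (x, y)).1⟫ = ⟪z, x⟫ - ⟪z, y⟫ ∧
    ⟪√2 • z, (R (x, y)).2⟫ = ⟪z, x⟫ + ⟪z, y⟫ := by
  have h := Real.mul_self_sqrt zero_le_two
  simp only [R, ContinuousLinearMap.rotation_apply, cos_neg, sin_neg, cos_pi_div_four,
    sin_pi_div_four, inner_add_right, real_inner_smul_left, real_inner_smul_right]
  constructor
  · linear_combination (⟪z, x⟫ - ⟪z, y⟫) / 2 * h
  · linear_combination (⟪z, x⟫ + ⟪z, y⟫) / 2 * h

lemma R_mp : MeasurePreserving (R (E := E)) ((stdGaussian E).prod (stdGaussian E))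
    ((stdGaussian E).prod (stdGaussian E)) :=
  ⟨by unfold R; fun_prop, IsGaussian.map_rotation_eq_self integral_id_stdGaussian _⟩

lemma F2 (hν : ∀ᵐ z ∂ν, ‖z.1‖ ≤ M ∧ |z.2| ≤ 1) (x : E) :
    Integrable (fun q : E × E => G ν (R (x, q.1)).1 q.2 * G ν (R (x, q.1)).2 q.2)
      ((stdGaussian E).prod (stdGaussian E)) ∧
    ∫ q : E × E, G ν (R (x, q.1)).1 q.2 * G ν (R (x, q.1)).2 q.2
      ∂(stdGaussian E).prod (stdGaussian E) = g ν 1 x * g ν 1 x := by
  have := fub ν ((stdGaussian E).prod (stdGaussian E)) measurable_snd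
    (u := fun z (q : E × E) => ee (√2 • z.1) (R (x, q.1)).1 * ee z.1 q.2)
    (w := fun z (q : E × E) => ee (√2 • z.1) (R (x, q.1)).2 * ee z.1 q.2)
    (by unfold ee Function.uncurry R; fun_prop) (by unfold ee Function.uncurry R; fun_prop)
    (fun _ _ => by unfold ee; positivity) (fun _ _ => by unfold ee; positivity)
    (κ := fun z w => ee ((1 : ℝ) • z.1) x * ee ((1 : ℝ) • w.1) x) (fun z w => ?_)
    (C := exp (|1| * M * ‖x‖) * exp (|1| * M * ‖x‖)) ?_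
  · refine ⟨this.1, this.2.trans ?_⟩
    rw [g, ← integral_prod_mul]
    exact integral_congr_ae (Eventually.of_forall fun p => by ring)
  · have := expint2 (w.1 - z.1) (z.1 + w.1) (⟪z.1, x⟫ + ⟪w.1, x⟫ - ‖√2 • z.1‖ ^ 2 / 2 -
      ‖√2 • w.1‖ ^ 2 / 2 - ‖z.1‖ ^ 2 / 2 - ‖w.1‖ ^ 2 / 2)
    simp only [ee, ← exp_add, (R_inner _ _ _).1, (R_inner _ _ _).2, one_smul]
    refine cnv this (fun _ => ?_) ?_
    · rw [inner_add_left, inner_sub_left]; ring
    · rw [norm_add_sq_real, norm_sub_sq_real, norm_smul, norm_smul, mul_pow, mul_pow,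
        Real.norm_eq_abs, sq_abs, Real.sq_sqrt zero_le_two, real_inner_comm z.1 w.1]
      ring
  · filter_upwards [ae2 hν] with p hp
    exact ⟨hp.1.2, hp.2.2, mul_le_mul (ele hp.1.1 _ _) (ele hp.2.1 _ _) (exp_pos _).le
      (exp_pos _).le⟩

lemma g4 (hν : ∀ᵐ z ∂ν, ‖z.1‖ ≤ M ∧ |z.2| ≤ 1) :
    Integrable (fun x => g ν 1 x ^ 4) (stdGaussian E) ∧
      ∫ x, g ν 1 x ^ 4 ∂stdGaussian E ≤ psi ν 3 ^ 2 := by
  set N : E → ℝ := fun a => ∫ c, G ν a c * G ν a c ∂stdGaussian E with hN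
  have h1 : Integrable N (stdGaussian E) := (F3b hν).1.integral_prod_left
  have h2 : ∫ a, N a ∂stdGaussian E = psi ν 3 := by
    rw [← (F3b hν).2, integral_prod _ (F3b hν).1]
  have h3 := R_mp.integrable_comp_of_integrable (h1.mul_prod h1)
  have h4 : ∫ q, N (R q).1 * N (R q).2 ∂(stdGaussian E).prod (stdGaussian E) = psi ν 3 ^ 2 := by
    have := integral_map (μ := (stdGaussian E).prod (stdGaussian E)) R_mp.measurable.aemeasurable
      (f := fun q : E × E => N q.1 * N q.2) (by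
        rw [R_mp.map_eq]; exact (h1.mul_prod h1).aestronglyMeasurable)
    rw [← this, R_mp.map_eq, integral_prod_mul, h2, sq]
  have h5 : ∀ᵐ x ∂stdGaussian E, g ν 1 x ^ 4 ≤
      ∫ y, N (R (x, y)).1 * N (R (x, y)).2 ∂stdGaussian E := by
    filter_upwards [h3.prod_right_ae] with x hx
    have hx : Integrable (fun y => N (R (x, y)).1 * N (R (x, y)).2) (stdGaussian E) := hx
    have n0 : ∀ a, 0 ≤ N a := fun a => integral_nonneg fun c => mul_self_nonneg _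
    obtain ⟨τ, hτ⟩ : ∃ τ, τ = g ν 1 x * g ν 1 x := ⟨_, rfl⟩
    have e : g ν 1 x ^ 4 = τ ^ 2 := by rw [hτ]; ring
    have h6 := (F2 hν x).2
    rw [integral_prod _ (F2 hν x).1, ← hτ] at h6
    have h7 := integral_mono (((F2 hν x).1.integral_prod_left).const_mul (2 * τ))
      (hx.add (integrable_const (τ ^ 2))) fun y => by
        have := cs (F3a hν (R (x, y)).1 (R (x, y)).1) (F3a hν (R (x, y)).1 (R (x, y)).2)
          (F3a hν (R (x, y)).2 (R (x, y)).2)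
        simp only [Pi.add_apply, hN]
        nlinarith [sq_nonneg (∫ c, G ν (R (x, y)).1 c * G ν (R (x, y)).2 c ∂stdGaussian E - τ)]
    rw [integral_const_mul, h6, integral_add' hx (integrable_const _)] at h7
    simp only [integral_const, probReal_univ, smul_eq_mul, one_mul] at h7
    rw [e]; linarith
  have h8 : Integrable (fun x => g ν 1 x ^ 4) (stdGaussian E) := by
    refine Integrable.mono' h3.integral_prod_left ?_ ?_
    · have := (F1 hν 1 1).1.aestronglyMeasurable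
      convert this.mul this using 2 with x
      simp only [Pi.mul_apply]; ring
    · filter_upwards [h5] with x hx
      rwa [Real.norm_of_nonneg (by positivity)]
  refine ⟨h8, (integral_mono_ae h8 h3.integral_prod_left h5).trans_eq ?_⟩
  rw [← h4]
  exact (integral_prod _ h3).symm

lemma psi3 (hν : ∀ᵐ z ∂ν, ‖z.1‖ ≤ M ∧ |z.2| ≤ 1) :
    0 ≤ psi ν 1 ∧ psi ν 3 ^ 8 ≤ psi ν 1 ^ 7 * psi ν 6561 := by
  have h0 : ∀ s, 0 ≤ psi ν (s * s) := fun s => by
    rw [← (F1 hν s s).2]; exact integral_nonneg fun _ => mul_self_nonneg _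
  have h : ∀ s, psi ν s ^ 2 ≤ psi ν 1 * psi ν (s * s) := fun s => by
    have := cs (F1 hν 1 1).1 (F1 hν 1 s).1 (F1 hν s s).1
    rwa [(F1 hν _ _).2, (F1 hν _ _).2, (F1 hν _ _).2, one_mul, one_mul] at this
  have a1 := h0 1
  have a2 := h0 3
  have b1 := h 3
  have b2 := h 9
  have b3 := h 81
  norm_num only at a1 a2 b1 b2 b3
  refine ⟨a1, ?_⟩
  calc psi ν 3 ^ 8 = (psi ν 3 ^ 2) ^ 4 := by ring
    _ ≤ (psi ν 1 * psi ν 9) ^ 4 := by gcongr
    _ = psi ν 1 ^ 4 * (psi ν 9 ^ 2) ^ 2 := by ring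
    _ ≤ psi ν 1 ^ 4 * (psi ν 1 * psi ν 81) ^ 2 := by gcongr
    _ = psi ν 1 ^ 6 * psi ν 81 ^ 2 := by ring
    _ ≤ psi ν 1 ^ 6 * (psi ν 1 * psi ν 6561) := by gcongr
    _ = _ := by ring

end Pool.Agent.H.MP_ba1a3e_pr
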