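import Pool.Agent.H.MP_ba1a3e_pr.A

/-! Chi-squared versus Hellinger for Gaussian mixtures. -/

namespace Pool.Agent.H.MP_ba1a3e_pr

open MeasureTheory ProbabilityTheory Real Filter
open scoped RealInnerProductSpace

lemma pt1 {a b l : ℝ} (ha : 0 < a) (hb : 0 < b) (hl : 0 < l) :
    (a - b) ^ 2 / b ≤ 6 * (√a - √b) ^ 2 + (l * (a - b) ^ 4 + b⁻¹ ^ 8 / l ^ 3) := by
  have e : (a - b) ^ 2 = (√a - √b) ^ 2 * (√a + √b) ^ 2 := by
    rw [← mul_pow]; congr 1; nlinarith [Real.sq_sqrt ha.le, Real.sq_sqrt hb.le]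
  rcases le_total |a - b| b with h | h
  · have h1 : (√a + √b) ^ 2 ≤ 6 * b := by
      nlinarith [Real.sq_sqrt ha.le, Real.sq_sqrt hb.le, sq_nonneg (√a - √b), (abs_le.1 h).2]
    have h2 : (a - b) ^ 2 / b ≤ 6 * (√a - √b) ^ 2 := by
      rw [div_le_iff₀ hb, e]; nlinarith [sq_nonneg (√a - √b)]
    have : 0 ≤ l * (a - b) ^ 4 + b⁻¹ ^ 8 / l ^ 3 := by positivity
    linarith
  · have e4 : (a - b) ^ 4 = |a - b| ^ 4 := (Even.pow_abs (by decide) _).symm
    rw [← sq_abs, e4]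
    generalize |a - b| = u at h
    have hu : 0 < u := hb.trans_le h
    obtain ⟨w, hw⟩ : ∃ w, w = b⁻¹ ^ 2 := ⟨_, rfl⟩
    have hw0 : 0 < w := by rw [hw]; positivity
    have h1 : u ^ 2 / b ≤ u ^ 3 * w := by
      rw [hw, div_le_iff₀ hb]
      calc u ^ 2 = u ^ 2 * b * b⁻¹ ^ 2 * b := by field_simp
        _ ≤ u ^ 2 * u * b⁻¹ ^ 2 * b := by gcongr
        _ = _ := by ring
    have h2 : u ^ 3 * w ≤ l * u ^ 4 + w ^ 4 / l ^ 3 := by
      rcases le_total w (l * u) with h3 | h3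
      · have : 0 ≤ w ^ 4 / l ^ 3 := by positivity
        nlinarith [mul_le_mul_of_nonneg_left h3 (pow_pos hu 3).le]
      · have h4 : u ^ 3 * w ≤ w ^ 4 / l ^ 3 := by
          rw [le_div_iff₀ (by positivity)]
          calc u ^ 3 * w * l ^ 3 = (l * u) ^ 3 * w := by ring
            _ ≤ w ^ 3 * w := by gcongr
            _ = _ := by ring
        have : 0 ≤ l * u ^ 4 := by positivity
        linarith
    have e8 : b⁻¹ ^ 8 = w ^ 4 := by rw [hw]; ring
    rw [e8]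
    nlinarith [sq_nonneg (√a - √b)]

lemma pt2 {a b l τ : ℝ} (ha : 0 < a) (hb : 0 < b) (hl : 0 < l) (hτ : 0 < τ) :
    (a - b) ^ 2 ≤ l / (2 * τ) * (√a - √b) ^ 2 + l * τ * (a + b) + (a - b) ^ 4 / l ^ 2 := by
  have h1 : |a - b| ≤ (√a - √b) ^ 2 / (2 * τ) + τ * (a + b) := by
    have e : a - b = (√a - √b) * (√a + √b) := by
      nlinarith [Real.sq_sqrt ha.le, Real.sq_sqrt hb.le]
    have h2 : (√a + √b) ^ 2 ≤ 2 * (a + b) := by
      nlinarith [Real.sq_sqrt ha.le, Real.sq_sqrt hb.le, sq_nonneg (√a - √b)]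
    rw [e, div_add' _ _ _ (by positivity), le_div_iff₀ (by positivity)]
    have h3 := mul_le_mul_of_nonneg_left h2 (sq_nonneg τ)
    rcases abs_choice ((√a - √b) * (√a + √b)) with h | h <;> rw [h]
    · nlinarith [sq_nonneg (√a - √b - τ * (√a + √b))]
    · nlinarith [sq_nonneg (√a - √b + τ * (√a + √b))]
  have h2 : (a - b) ^ 2 ≤ l * |a - b| + (a - b) ^ 4 / l ^ 2 := by
    have e4 : (a - b) ^ 4 = |a - b| ^ 4 := (Even.pow_abs (by decide) _).symm
    rw [← sq_abs, e4]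
    have hu := abs_nonneg (a - b)
    generalize |a - b| = u at hu
    rcases le_total u l with h | h
    · have : 0 ≤ u ^ 4 / l ^ 2 := by positivity
      nlinarith
    · have : u ^ 2 ≤ u ^ 4 / l ^ 2 := by
        rw [le_div_iff₀ (by positivity)]
        calc u ^ 2 * l ^ 2 ≤ u ^ 2 * u ^ 2 := by gcongr
          _ = _ := by ring
      nlinarith
  calc _ ≤ l * ((√a - √b) ^ 2 / (2 * τ) + τ * (a + b)) + (a - b) ^ 4 / l ^ 2 := by
        refine h2.trans ?_; gcongr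
    _ = _ := by ring

lemma core {Ω : Type*} [MeasurableSpace Ω] {P : Measure Ω} {a b : Ω → ℝ} (ma : Measurable a)
    (mb : Measurable b) (ha : ∀ x, 0 < a x) (hb : ∀ x, 0 < b x) (ia : Integrable a P)
    (ib : Integrable b P) (ea : ∫ x, a x ∂P = 1) (eb : ∫ x, b x ∂P = 1)
    (i2 : Integrable (fun x => (a x - b x) ^ 2) P) (i4 : Integrable (fun x => (a x - b x) ^ 4) P)
    (i8 : Integrable (fun x => (b x)⁻¹ ^ 8) P) {K C D t : ℝ} (hK : 0 < K) (hC : 0 ≤ C) (ht : 0 ≤ t)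
    (h2 : ∫ x, (a x - b x) ^ 2 ∂P = t ^ 8) (h4 : ∫ x, (a x - b x) ^ 4 ∂P ≤ K ^ 2 / 2 * t ^ 14)
    (h8 : ∫ x, (b x)⁻¹ ^ 8 ∂P ≤ C) (hD : t ^ 8 ≤ D) :
    Integrable (fun x => (√(a x) - √(b x)) ^ 2) P ∧ Integrable (fun x => (a x - b x) ^ 2 / b x) P ∧
      ∫ x, (a x - b x) ^ 2 / b x ∂P ≤ (6 + (K ^ 2 / 2 + C * (1 + D)) * (16 * K ^ 2)) *
        ∫ x, (√(a x) - √(b x)) ^ 2 ∂P := by
  have iH : Integrable (fun x => (√(a x) - √(b x)) ^ 2) P := by
    refine (ia.add ib).mono' (by fun_prop) (Eventually.of_forall fun x => ?_)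
    rw [Real.norm_of_nonneg (sq_nonneg _), Pi.add_apply]
    nlinarith [Real.sq_sqrt (ha x).le, Real.sq_sqrt (hb x).le,
      mul_nonneg (Real.sqrt_nonneg (a x)) (Real.sqrt_nonneg (b x))]
  have iR : ∀ l : ℝ, Integrable (fun x => 6 * (√(a x) - √(b x)) ^ 2 +
      (l * (a x - b x) ^ 4 + (b x)⁻¹ ^ 8 / l ^ 3)) P := fun l =>
    (iH.const_mul 6).add ((i4.const_mul l).add (i8.div_const _))
  have ic : Integrable (fun x => (a x - b x) ^ 2 / b x) P := by
    refine (iR 1).mono' (Measurable.aestronglyMeasurable (by fun_prop)) (Eventually.of_forall fun x => ?_)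
    rw [Real.norm_of_nonneg (div_nonneg (sq_nonneg _) (hb x).le)]
    exact pt1 (ha x) (hb x) one_pos
  refine ⟨iH, ic, ?_⟩
  have H0 : 0 ≤ ∫ x, (√(a x) - √(b x)) ^ 2 ∂P := integral_nonneg fun x => sq_nonneg _
  have D0 : 0 ≤ D := le_trans (by positivity) hD
  rcases ht.eq_or_lt with rfl | ht
  · rw [zero_pow (by norm_num), integral_eq_zero_iff_of_nonneg (fun x => sq_nonneg _) i2] at h2
    have : ∫ x, (a x - b x) ^ 2 / b x ∂P = 0 := by
      refine integral_eq_zero_of_ae ?_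
      filter_upwards [h2] with x hx
      simp only [Pi.zero_apply] at hx ⊢
      rw [hx, zero_div]
    rw [this]; positivity
  have h5 := integral_mono ic (iR (t⁻¹ ^ 4)) fun x => pt1 (ha x) (hb x) (by positivity)
  rw [integral_add (iH.const_mul 6) ((i4.const_mul _).fun_add (i8.div_const _)),
    integral_add (i4.const_mul _) (i8.div_const _), integral_const_mul, integral_const_mul,
    integral_div] at h5
  have h6 := integral_mono i2 (((iH.const_mul (K * t ^ 3 / (2 * (t ^ 5 / (8 * K))))).fun_add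
    ((ia.fun_add ib).const_mul (K * t ^ 3 * (t ^ 5 / (8 * K))))).fun_add
      (i4.div_const ((K * t ^ 3) ^ 2))) fun x => pt2 (ha x) (hb x) (by positivity) (by positivity)
  rw [integral_add ((iH.const_mul _).fun_add ((ia.fun_add ib).const_mul _)) (i4.div_const _),
    integral_add (iH.const_mul _) ((ia.fun_add ib).const_mul _), integral_const_mul,
    integral_const_mul, integral_div, integral_add ia ib, ea, eb, h2] at h6
  generalize ∫ x, (√(a x) - √(b x)) ^ 2 ∂P = H at *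
  have h7 : (∫ x, (a x - b x) ^ 4 ∂P) / (K * t ^ 3) ^ 2 ≤ t ^ 8 / 2 := by
    rw [div_le_iff₀ (by positivity)]
    exact h4.trans_eq (by ring)
  have e1 : K * t ^ 3 / (2 * (t ^ 5 / (8 * K))) = 4 * K ^ 2 / t ^ 2 := by field_simp; ring
  have e2 : K * t ^ 3 * (t ^ 5 / (8 * K)) * (1 + 1) = t ^ 8 / 4 := by field_simp; ring
  rw [e1, e2] at h6
  have h9 : t ^ 10 ≤ 16 * K ^ 2 * H := by
    have : t ^ 8 / 4 ≤ 4 * K ^ 2 * H / t ^ 2 := by rw [← div_mul_eq_mul_div]; linarith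
    rw [le_div_iff₀ (by positivity)] at this
    linarith
  have h10 : t⁻¹ ^ 4 * ∫ x, (a x - b x) ^ 4 ∂P ≤ K ^ 2 / 2 * t ^ 10 :=
    (mul_le_mul_of_nonneg_left h4 (by positivity)).trans_eq (by field_simp)
  have h11 : (∫ x, (b x)⁻¹ ^ 8 ∂P) / (t⁻¹ ^ 4) ^ 3 ≤ C * (1 + D) * t ^ 10 := by
    have : t ^ 2 ≤ 1 + D := by
      nlinarith [sq_nonneg (t ^ 2 - 1), sq_nonneg (t ^ 4 - 1), sq_nonneg (t ^ 2)]
    calc _ ≤ C / (t⁻¹ ^ 4) ^ 3 := by gcongr
      _ = C * t ^ 2 * t ^ 10 := by field_simp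
      _ ≤ _ := by gcongr
  have h12 : (K ^ 2 / 2 + C * (1 + D)) * t ^ 10 ≤ (K ^ 2 / 2 + C * (1 + D)) * (16 * K ^ 2 * H) := by
    gcongr
  nlinarith

variable {E : Type*} [NormedAddCommGroup E] [InnerProductSpace ℝ E] [FiniteDimensional ℝ E]
  [MeasurableSpace E] [BorelSpace E]

/-- Likelihood ratio of the mixture. -/
noncomputable def L (p : Measure E) (x : E) : ℝ := ∫ z, ee z x ∂p

variable {M : ℝ} {p q : Measure E} [IsProbabilityMeasure p] [IsProbabilityMeasure q]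

lemma L_meas (p : Measure E) [SFinite p] : Measurable (L p) := by
  unfold L ee
  exact (StronglyMeasurable.integral_prod_left (f := fun z x : E => exp (⟪z, x⟫ - ‖z‖ ^ 2 / 2))
    (Measurable.stronglyMeasurable (by unfold Function.uncurry; fun_prop))).measurable

lemma ee_int (hp : ∀ᵐ z ∂p, ‖z‖ ≤ M) (x : E) : Integrable (fun z => ee z x) p := by
  refine Integrable.of_bound (by unfold ee; fun_prop) (exp (|1| * M * ‖x‖)) ?_
  filter_upwards [hp] with z hz
  have := ele hz 1 x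
  rw [one_smul] at this
  rwa [Real.norm_of_nonneg (by unfold ee; positivity)]

lemma L_pos (hp : ∀ᵐ z ∂p, ‖z‖ ≤ M) (x : E) : 0 < L p x := integral_exp_pos (ee_int hp x)

lemma mix (hp : ∀ᵐ z ∂p, ‖z‖ ≤ M) (s : ℝ) :
    Integrable (fun x => ∫ z, exp (s * (⟪z, x⟫ - ‖z‖ ^ 2 / 2)) ∂p) (stdGaussian E) ∧
      ∫ x, ∫ z, exp (s * (⟪z, x⟫ - ‖z‖ ^ 2 / 2)) ∂p ∂stdGaussian E =
        ∫ z, exp ((s ^ 2 - s) / 2 * ⟪z, z⟫) ∂p := by
  have := fub p (stdGaussian E) (σ := fun _ => 1) measurable_const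
    (u := fun z x => exp (s * (⟪z, x⟫ - ‖z‖ ^ 2 / 2))) (w := fun _ _ => 1)
    (by unfold Function.uncurry; fun_prop) measurable_const (fun _ _ => by positivity)
    (fun _ _ => by positivity) (κ := fun z _ => exp ((s ^ 2 - s) / 2 * ⟪z, z⟫)) (fun z w => ?_)
    (C := exp (|(s ^ 2 - s) / 2| * M ^ 2)) ?_
  · simpa [integral_fun_fst (f := fun z : E => exp ((s ^ 2 - s) / 2 * ‖z‖ ^ 2))] using this
  · simp only [mul_one]
    refine cnv (expint (s • z) (-s * ‖z‖ ^ 2 / 2)) (fun _ => ?_) ?_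
    · rw [real_inner_smul_left]; ring
    · rw [norm_smul, mul_pow, Real.norm_eq_abs, sq_abs, real_inner_self_eq_norm_sq]; ring
  · filter_upwards [Measure.quasiMeasurePreserving_fst.ae hp] with z hz
    exact ⟨by simp, by simp, kle hz hz _⟩

lemma L_int (hp : ∀ᵐ z ∂p, ‖z‖ ≤ M) :
    Integrable (L p) (stdGaussian E) ∧ ∫ x, L p x ∂stdGaussian E = 1 := by
  unfold L ee
  simpa using mix hp 1

lemma L_neg (hp : ∀ᵐ z ∂p, ‖z‖ ≤ M) : Integrable (fun x => (L p x)⁻¹ ^ 8) (stdGaussian E) ∧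
    ∫ x, (L p x)⁻¹ ^ 8 ∂stdGaussian E ≤ exp (36 * M ^ 2) := by
  have h := mix hp (-8)
  have h1 : ∀ x, (L p x)⁻¹ ^ 8 ≤ ∫ z, exp (-8 * (⟪z, x⟫ - ‖z‖ ^ 2 / 2)) ∂p := by
    intro x
    have hb : ∀ᵐ z ∂p, |⟪z, x⟫ - ‖z‖ ^ 2 / 2| ≤ M * ‖x‖ + M ^ 2 / 2 := by
      filter_upwards [hp] with z hz
      refine (abs_sub _ _).trans (add_le_add ((abs_real_inner_le_norm z x).trans (by gcongr)) ?_)
      rw [abs_of_nonneg (by positivity)]
      gcongr
    have i1 : Integrable (fun z : E => ⟪z, x⟫ - ‖z‖ ^ 2 / 2) p :=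
      Integrable.of_bound (by fun_prop) _ hb
    have i2 : Integrable (fun z : E => exp (-8 * (⟪z, x⟫ - ‖z‖ ^ 2 / 2))) p := by
      refine Integrable.of_bound (by fun_prop) (exp (8 * (M * ‖x‖ + M ^ 2 / 2))) ?_
      filter_upwards [hb] with z hz
      rw [Real.norm_of_nonneg (exp_pos _).le, exp_le_exp]
      linarith [(abs_le.1 hz).1]
    have j1 := convexOn_exp.map_integral_le continuous_exp.continuousOn isClosed_univ (by simp) i1
      (ee_int hp x)
    have j2 := convexOn_exp.map_integral_le continuous_exp.continuousOn isClosed_univ (by simp)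
      (i1.const_mul (-8)) i2
    rw [integral_const_mul] at j2
    refine le_trans ?_ j2
    rw [show (-8 : ℝ) * ∫ z, ⟪z, x⟫ - ‖z‖ ^ 2 / 2 ∂p = (8 : ℕ) * -∫ z, ⟪z, x⟫ - ‖z‖ ^ 2 / 2 ∂p by
      push_cast; ring, exp_nat_mul, exp_neg]
    exact pow_le_pow_left₀ (inv_pos.2 (L_pos hp x)).le (inv_anti₀ (exp_pos _) j1) 8
  have h2 : Integrable (fun x => (L p x)⁻¹ ^ 8) (stdGaussian E) :=
    h.1.mono' ((L_meas p).inv.pow_const 8).aestronglyMeasurable
      (Eventually.of_forall fun x => by rw [Real.norm_of_nonneg (by positivity)]; exact h1 x)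
  refine ⟨h2, (integral_mono h2 h.1 h1).trans (h.2.trans_le ?_)⟩
  have := norm_integral_le_of_norm_le_const (μ := p) (C := exp (36 * M ^ 2))
    (f := fun z : E => exp (((-8 : ℝ) ^ 2 - -8) / 2 * ⟪z, z⟫)) (by
      filter_upwards [hp] with z hz
      rw [Real.norm_of_nonneg (exp_pos _).le]
      refine (kle hz hz _).trans_eq ?_
      norm_num)
  simpa using (le_abs_self _).trans this

theorem chi (M : ℝ) : ∃ C : ℝ, 0 ≤ C ∧ ∀ (E : Type) [NormedAddCommGroup E] [InnerProductSpace ℝ E]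
    [FiniteDimensional ℝ E] [MeasurableSpace E] [BorelSpace E] (p q : Measure E)
    [IsProbabilityMeasure p] [IsProbabilityMeasure q], (∀ᵐ z ∂p, ‖z‖ ≤ M) → (∀ᵐ z ∂q, ‖z‖ ≤ M) →
    Integrable (fun x => (L p x - L q x) ^ 2 / L q x) (stdGaussian E) ∧
      ∫ x, (L p x - L q x) ^ 2 / L q x ∂stdGaussian E ≤
        C * ∫ x, (√(L p x) - √(L q x)) ^ 2 ∂stdGaussian E := by
  obtain ⟨K, hK⟩ : ∃ K, K = exp (|6561| * M ^ 2) * 2 ^ 2 + 2 := ⟨_, rfl⟩
  have hK2 : 2 ≤ K := by rw [hK]; linarith [exp_pos (|6561| * M ^ 2)]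
  refine ⟨6 + (K ^ 2 / 2 + exp (36 * M ^ 2) * (1 + exp (|1| * M ^ 2) * 2 ^ 2)) * (16 * K ^ 2),
    by positivity, fun E _ _ _ _ _ p q _ _ hp hq => ?_⟩
  set ν : Measure (E × ℝ) := p.map (fun z => (z, 1)) + q.map fun z => (z, -1) with hνd
  have hν : ∀ᵐ z ∂ν, ‖z.1‖ ≤ M ∧ |z.2| ≤ 1 := by
    have hm : MeasurableSet {z : E × ℝ | ‖z.1‖ ≤ M ∧ |z.2| ≤ 1} :=
      (measurableSet_le measurable_fst.norm measurable_const).inter
        (measurableSet_le measurable_snd.norm measurable_const)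
    rw [hνd, ae_add_measure_iff, ae_map_iff (by fun_prop) hm, ae_map_iff (by fun_prop) hm]
    simpa using ⟨hp, hq⟩
  have hu : ν.real Set.univ = 2 := by
    rw [hνd, measureReal_add_apply, map_measureReal_apply (by fun_prop) .univ,
      map_measureReal_apply (by fun_prop) .univ]
    norm_num
  have hg : ∀ x, g ν 1 x = L p x - L q x := by
    intro x
    have hm : ∀ μ : Measure (E × ℝ),
        AEStronglyMeasurable (fun z : E × ℝ => z.2 * ee ((1 : ℝ) • z.1) x) μ :=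
      fun μ => by unfold ee; fun_prop
    rw [g, hνd, integral_add_measure, integral_map (by fun_prop) (hm _),
      integral_map (by fun_prop) (hm _)]
    · simp [L, integral_neg, sub_eq_add_neg]
    · rw [integrable_map_measure (hm _) (by fun_prop)]
      simpa [Function.comp_def] using ee_int hp x
    · rw [integrable_map_measure (hm _) (by fun_prop)]
      simpa [Function.comp_def] using (ee_int hq x).neg
  have h1 := F1 hν 1 1
  have h4 := g4 hν
  simp only [hg, ← sq] at h1 h4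
  obtain ⟨a1, a2⟩ := psi3 hν
  have b1 := psi_le hν 1
  have b2 := psi_le hν 6561
  rw [hu] at b1 b2
  obtain ⟨t, ht0, ht⟩ : ∃ t, 0 ≤ t ∧ psi ν 1 = t ^ 8 :=
    ⟨psi ν 1 ^ ((8 : ℕ) : ℝ)⁻¹, by positivity, (Real.rpow_inv_natCast_pow a1 (by norm_num)).symm⟩
  have h5 : psi ν 3 ^ 2 ≤ K ^ 2 / 2 * t ^ 14 := by
    refine le_of_pow_le_pow_left₀ (n := 4) (by norm_num) (by positivity) ?_
    have h6 : psi ν 6561 ≤ (K ^ 2 / 2) ^ 4 := by
      have h7 : K ≤ K ^ 2 / 2 := by nlinarith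
      calc _ ≤ K ^ 2 / 2 := by linarith
        _ ≤ _ := le_self_pow₀ (by linarith) (by norm_num)
    calc (psi ν 3 ^ 2) ^ 4 = psi ν 3 ^ 8 := by ring
      _ ≤ psi ν 1 ^ 7 * (K ^ 2 / 2) ^ 4 := a2.trans (by gcongr)
      _ = _ := by rw [ht]; ring
  exact (core (L_meas p) (L_meas q) (L_pos hp) (L_pos hq) (L_int hp).1 (L_int hq).1 (L_int hp).2
    (L_int hq).2 h1.1 h4.1 (L_neg hq).1 (by linarith) (exp_pos _).le ht0
    (by rw [h1.2, one_pow, ht]) (h4.2.trans h5) (L_neg hq).2 (ht ▸ b1)).2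

/-- The standard Gaussian density. -/
noncomputable def phi (x : E) : ℝ :=
  (2 * π) ^ (-(Module.finrank ℝ E : ℝ) / 2) * exp (-‖x‖ ^ 2 / 2)

lemma dens : stdGaussian E = volume.withDensity fun x => ENNReal.ofReal (phi x) := by
  have hb : 0 < (2⁻¹ : ℂ).re := by norm_num
  have hm : Measurable fun x : E => ENNReal.ofReal (phi x) := by unfold phi; fun_prop
  have h0 : ∀ x : E, 0 ≤ phi x := fun x => by unfold phi; positivity
  have hi : Integrable (phi : E → ℝ) := by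
    refine Integrable.const_mul ?_ _
    have := (GaussianFourier.integrable_cexp_neg_mul_sq_norm_add hb 0 (0 : E)).norm
    refine this.congr (Eventually.of_forall fun x => ?_)
    simp only [Complex.norm_exp, zero_mul, add_zero]
    congr 1
    simp [← Complex.ofReal_pow]
    ring
  have := isFiniteMeasure_withDensity_ofReal hi.2
  refine Measure.ext_of_charFun (funext fun t => ?_)
  rw [charFun_stdGaussian, charFun_apply,
    integral_withDensity_eq_integral_toReal_smul hm (by simp)]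
  have h := GaussianFourier.integral_cexp_neg_mul_sq_norm_add hb Complex.I t
  have e : ∀ x : E, (ENNReal.ofReal (phi x)).toReal • Complex.exp (⟪x, t⟫ * Complex.I) =
      ((2 * π) ^ (-(Module.finrank ℝ E : ℝ) / 2) : ℝ) *
        Complex.exp (-2⁻¹ * ‖x‖ ^ 2 + Complex.I * ⟪t, x⟫) := by
    intro x
    rw [ENNReal.toReal_ofReal (h0 x), phi, Complex.exp_add, real_inner_comm t x]
    simp only [Complex.real_smul, Complex.ofReal_mul, Complex.ofReal_exp]
    push_cast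
    ring_nf
  simp_rw [e]
  rw [integral_const_mul, h, ← mul_assoc, Complex.ofReal_cpow (by positivity)]
  have e2 : ((π : ℂ) / 2⁻¹) = ((2 * π : ℝ) : ℂ) := by push_cast; ring
  rw [e2, ← Complex.cpow_add _ _ (by exact_mod_cast (by positivity : (2 * π : ℝ) ≠ 0))]
  push_cast
  rw [neg_div (2 : ℂ) (Module.finrank ℝ E), neg_add_cancel, Complex.cpow_zero, one_mul, Complex.I_sq]
  congr 1
  ring

lemma transfer (F : E → ℝ) : (Integrable F (stdGaussian E) ↔ Integrable fun x => phi x * F x) ∧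
    ∫ x, F x ∂stdGaussian E = ∫ x, phi x * F x := by
  have hm : Measurable fun x : E => ENNReal.ofReal (phi x) := by unfold phi; fun_prop
  have h0 : ∀ x : E, 0 ≤ phi x := fun x => by unfold phi; positivity
  rw [dens, integrable_withDensity_iff_integrable_smul' hm (by simp),
    integral_withDensity_eq_integral_toReal_smul hm (by simp)]
  simp [ENNReal.toReal_ofReal (h0 _)]

end Pool.Agent.H.MP_ba1a3e_pr
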